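import Pool.Agent.H616Z.Vis.Final

set_option autoImplicit false

namespace Pool.Agent.Results.MP_47f674_lc.Undecidable

open Pool.Agent.H616Z.Vis

/-- No algorithm decides, given (the Gödel number of) a formula `A`, whether the logic
`L_A = IPC + A` admits all of Visser's rules `V_n`, `n ≥ 1`. -/
theorem result : Function.Injective Fm.code ∧
    ¬ ∃ f : ℕ → Bool, Computable f ∧ ∀ A : Fm, f A.code = true ↔ AdmitsVisser A :=
  ⟨code_injective, main⟩

end Pool.Agent.Results.MP_47f674_lc.Undecidable
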